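import Pool.Agent.H547.CV.Stm

/-!
# `S_R`
-/

set_option autoImplicit false

namespace Pool.Agent.H588.CV322

open Finset Pool.Agent.R439.PL Pool.Agent.H547.CV
open scoped Nat

theorem w_pos (k : ℕ) : 0 < w k := by
  unfold w
  have := Nat.centralBinom_pos k
  positivity

theorem w_succ (k : ℕ) : w (k + 1) * (2 * k + 2) = w k * (2 * k + 1) := by
  unfold w
  have h := Nat.succ_mul_centralBinom_succ k
  have h1 : ((k : ℚ) + 1) * (Nat.centralBinom (k + 1) : ℚ) =
      2 * (2 * k + 1) * (Nat.centralBinom k : ℚ) := by exact_mod_cast h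
  rw [pow_succ]
  field_simp
  linear_combination 2 * h1

theorem choose_rec (n k : ℕ) (h : k ≤ n) :
    ((n.choose (k + 1) : ℕ) : ℚ) * (k + 1) = (n.choose k : ℚ) * ((n : ℚ) - k) := by
  have h1 := Nat.choose_succ_right_eq n k
  have h2 : ((n.choose (k + 1) : ℕ) : ℚ) * ((k + 1 : ℕ) : ℚ) = (n.choose k : ℚ) * ((n - k : ℕ) : ℚ) := by
    exact_mod_cast h1
  rw [Nat.cast_sub h] at h2
  rw [← h2]
  push_cast
  ring

/-- the recursion -/
theorem rho_rec (N l : ℕ) (h : l < N) :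
    rho N (l + 1) = rho N l * ((2 * (l : ℚ) + 1) / (2 * N - (2 * l + 1))) ^ 2 := by
  obtain ⟨d, rfl⟩ := Nat.exists_eq_add_of_lt h
  have e1 : l + d + 1 - (l + 1) = d := by omega
  have e2 : l + d + 1 - l = d + 1 := by omega
  have e3 : 2 * (l + 1) = 2 * l + 1 + 1 := by ring
  have c1 := choose_rec (2 * (l + d + 1)) (2 * l) (by omega)
  have c2 := choose_rec (2 * (l + d + 1)) (2 * l + 1) (by omega)
  unfold rho
  rw [e1, e2, e3]
  have p0 : (0 : ℚ) < ((2 * (l + d + 1)).choose (2 * l) : ℕ) := by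
    exact_mod_cast Nat.choose_pos (by omega)
  have p2 : (0 : ℚ) < ((2 * (l + d + 1)).choose (2 * l + 1 + 1) : ℕ) := by
    exact_mod_cast Nat.choose_pos (by omega)
  have w1 := w_succ l
  have w2 := w_succ d
  generalize (((2 * (l + d + 1)).choose (2 * l) : ℕ) : ℚ) = C0 at *
  generalize (((2 * (l + d + 1)).choose (2 * l + 1) : ℕ) : ℚ) = C1 at *
  generalize (((2 * (l + d + 1)).choose (2 * l + 1 + 1) : ℕ) : ℚ) = C2 at *
  push_cast at c1 c2 ⊢
  have hC1 : C1 = C0 * (2 * d + 2) / (2 * l + 1) := by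
    field_simp
    linear_combination c1
  have hC2 : C2 = C1 * (2 * d + 1) / (2 * l + 2) := by
    field_simp
    linear_combination c2
  have hw1 : w (l + 1) = w l * (2 * l + 1) / (2 * l + 2) := by
    field_simp
    linear_combination w1
  have hw2 : w (d + 1) = w d * (2 * d + 1) / (2 * d + 2) := by
    field_simp
    linear_combination w2
  have e4 : 2 * ((l : ℚ) + d + 1) - (2 * l + 1) = 2 * d + 1 := by ring
  rw [e4, hC2, hC1, hw1, hw2]
  field_simp

theorem rho_zero (N : ℕ) : rho N 0 = w N := by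
  unfold rho
  have : w 0 = 1 := by
    unfold w
    simp
  rw [this]
  simp

theorem rho_prod (N l : ℕ) (h : l ≤ N) :
    rho N l = w N * ∏ j ∈ range l, ((2 * (j : ℚ) + 1) / (2 * N - (2 * j + 1))) ^ 2 := by
  induction l with
  | zero => rw [prod_range_zero, mul_one, rho_zero]
  | succ l ih => rw [rho_rec N l (by omega), ih (by omega), prod_range_succ, mul_assoc]

variable {p : ℕ} [hp : Fact p.Prime]

theorem div_I {r L : ℕ} (h0 : 0 < L) (h1 : L < 2 * p ^ r) (h2 : L ≠ p ^ r) :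
    I p 1 (((p ^ r : ℕ) : ℚ) / L) := by
  obtain ⟨a, m, hm, rfl⟩ := Nat.exists_eq_pow_mul_and_not_dvd h0.ne' p hp.out.ne_one
  have ha : a < r := by
    by_contra hc
    push Not at hc
    have h3 : p ^ r ∣ p ^ a * m := Dvd.dvd.mul_right (pow_dvd_pow p hc) m
    obtain ⟨c, hc⟩ := h3
    rw [hc] at h0 h1 h2
    have hpr : 0 < p ^ r := pow_pos hp.out.pos r
    have c1 : c < 2 := by
      by_contra h4
      push Not at h4
      have := Nat.mul_le_mul_left (p ^ r) h4
      omega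
    interval_cases c
    · omega
    · omega
  obtain ⟨d, rfl⟩ := Nat.exists_eq_add_of_lt ha
  have um : U p (m : ℚ) := by
    have : ¬ (p : ℤ) ∣ (m : ℤ) := fun h => hm (Int.natCast_dvd_natCast.1 h)
    exact_mod_cast U_int this
  refine ⟨(p : ℚ) ^ d / m, ?_, ?_⟩
  · rw [div_eq_mul_inv]
    exact mul_mem (pow_mem p_mem _) um.2.2
  · have h3 := um.1
    have h4 := p_ne (p := p)
    push_cast
    rw [pow_add, pow_add, pow_one]
    field_simp

/-- the factors -/
theorem fac {r j : ℕ} (h1 : 2 * j + 1 < 2 * p ^ r) (h2 : 2 * j + 1 ≠ p ^ r) :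
    EQ p 2 (((2 * (j : ℚ) + 1) / (2 * (p ^ r : ℕ) - (2 * j + 1))) ^ 2)
      (1 + 4 * (((p ^ r : ℕ) : ℚ) / (2 * (j : ℚ) + 1))) := by
  have hx := div_I (p := p) (r := r) (L := 2 * j + 1) (by omega) h1 h2
  push_cast at hx
  have hL : (0 : ℚ) < 2 * (j : ℚ) + 1 := by positivity
  have hD : (2 * ((p ^ r : ℕ) : ℚ) - (2 * j + 1)) ≠ 0 := by
    have : (2 * (j : ℚ) + 1) < 2 * ((p ^ r : ℕ) : ℚ) := by exact_mod_cast h1
    linarith
  have e : (2 * (j : ℚ) + 1) / (2 * (p ^ r : ℕ) - (2 * j + 1)) =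
      -(1 - 2 * (((p ^ r : ℕ) : ℚ) / (2 * (j : ℚ) + 1)))⁻¹ := by
    have h3 : (1 - 2 * (((p ^ r : ℕ) : ℚ) / (2 * (j : ℚ) + 1))) =
        -((2 * ((p ^ r : ℕ) : ℚ) - (2 * j + 1)) / (2 * (j : ℚ) + 1)) := by
      field_simp
      ring
    rw [h3, inv_neg, neg_neg, inv_div]
  rw [e]
  push_cast
  generalize ((p : ℚ) ^ r / (2 * (j : ℚ) + 1)) = x at *
  have m2 : (2 : ℚ) ∈ Zp p := by exact_mod_cast nat_mem (p := p) 2
  have m4 : (4 : ℚ) ∈ Zp p := by exact_mod_cast nat_mem (p := p) 4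
  have m12 : (12 : ℚ) ∈ Zp p := by exact_mod_cast nat_mem (p := p) 12
  have m16 : (16 : ℚ) ∈ Zp p := by exact_mod_cast nat_mem (p := p) 16
  have hu : U p (1 - 2 * x) := by
    have h3 : EQ p 1 1 (1 - 2 * x) := by
      refine ⟨one_mem _, sub_mem (one_mem _) (mul_mem m2 hx.mem), ?_⟩
      have e5 : 1 - (1 - 2 * x) = 2 * x := by ring
      rw [e5]
      exact hx.mulL m2
    exact h3.unit one_pos U.one
  refine ⟨?_, ?_, ?_⟩
  · exact pow_mem (neg_mem hu.2.2) 2
  · exact add_mem (one_mem _) (mul_mem m4 hx.mem)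
  · have h0 := hu.1
    have e6 : (-(1 - 2 * x)⁻¹) ^ 2 - (1 + 4 * x) =
        x * x * ((12 - 16 * x) * ((1 - 2 * x)⁻¹) ^ 2) := by
      field_simp
      ring
    rw [e6]
    exact (hx.mul hx).mulR (mul_mem (sub_mem m12 (mul_mem m16 hx.mem)) (pow_mem hu.2.2 2))

theorem fac_one {r j : ℕ} (h1 : 2 * j + 1 < 2 * p ^ r) :
    EQ p 1 (((2 * (j : ℚ) + 1) / (2 * (p ^ r : ℕ) - (2 * j + 1))) ^ 2) 1 := by
  by_cases h2 : 2 * j + 1 = p ^ r
  · have e : (2 * (j : ℚ) + 1) / (2 * (p ^ r : ℕ) - (2 * j + 1)) = 1 := by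
      rw [← h2]
      push_cast
      have : (2 * (j : ℚ) + 1) ≠ 0 := by positivity
      have e1 : 2 * (2 * (j : ℚ) + 1) - (2 * j + 1) = 2 * j + 1 := by ring
      rw [e1, div_self this]
    rw [e, one_pow]
    exact EQ.refl (one_mem _)
  · refine ((fac h1 h2).mono (by norm_num)).trans ?_
    have hx := div_I (p := p) (r := r) (L := 2 * j + 1) (by omega) h1 h2
    push_cast at hx ⊢
    have m4 : (4 : ℚ) ∈ Zp p := by exact_mod_cast nat_mem (p := p) 4
    refine ⟨add_mem (one_mem _) (mul_mem m4 hx.mem), one_mem _, ?_⟩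
    have e5 : ∀ x : ℚ, 1 + 4 * x - 1 = 4 * x := fun x => by ring
    rw [e5]
    exact hx.mulL m4

theorem w_mem (h : p ≠ 2) (N : ℕ) : w N ∈ Zp p := by
  unfold w
  have h4 : U p (4 : ℚ) := by
    have : ¬ (p : ℤ) ∣ (4 : ℤ) := by
      intro h1
      have h2 : (p : ℤ) ∣ 2 * 2 := by exact_mod_cast h1
      have h3 : (p : ℤ) ∣ 2 := by
        rcases (pz (p := p)).dvd_or_dvd h2 with h5 | h5 <;> exact h5
      have h6 : p ∣ 2 := by exact_mod_cast h3
      exact h ((Nat.prime_dvd_prime_iff_eq hp.out Nat.prime_two).1 h6)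
    exact_mod_cast U_int this
  rw [div_eq_mul_inv]
  exact mul_mem (nat_mem _) (h4.pow N).2.2

theorem prod_lin {n : ℕ} {x : ℕ → ℚ} (hx : ∀ j < n, I p 1 (x j)) :
    EQ p 2 (∏ j ∈ range n, (1 + 4 * x j)) (1 + 4 * ∑ j ∈ range n, x j) := by
  have m4 : (4 : ℚ) ∈ Zp p := by exact_mod_cast nat_mem (p := p) 4
  have m16 : (16 : ℚ) ∈ Zp p := by exact_mod_cast nat_mem (p := p) 16
  induction n with
  | zero =>
    rw [prod_range_zero, sum_range_zero, mul_zero, add_zero]
    exact EQ.refl (one_mem _)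
  | succ n ih =>
    have ih := ih fun j hj => hx j (by omega)
    have hn := hx n (by omega)
    have hs : I p 1 (∑ j ∈ range n, x j) := I.sum fun j hj => hx j (by
      have := mem_range.1 hj
      omega)
    rw [prod_range_succ, sum_range_succ]
    have h1 : (1 + 4 * x n) ∈ Zp p := add_mem (one_mem _) (mul_mem m4 hn.mem)
    refine (ih.mul (EQ.refl h1)).trans ?_
    generalize ∑ j ∈ range n, x j = S at *
    refine ⟨mul_mem (add_mem (one_mem _) (mul_mem m4 hs.mem)) h1,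
      add_mem (one_mem _) (mul_mem m4 (add_mem hs.mem hn.mem)), ?_⟩
    have e : (1 + 4 * S) * (1 + 4 * x n) - (1 + 4 * (S + x n)) = 16 * (S * x n) := by ring
    rw [e]
    exact (hs.mul hn).mulL m16

theorem s_r : S_R := by
  intro p hp r h2 hr
  have hw := w_mem (p := p) h2 (p ^ r)
  constructor
  · intro l hl
    rw [rho_prod _ _ hl]
    have h1 : EQ p 1 (∏ j ∈ range l, ((2 * (j : ℚ) + 1) / (2 * (p ^ r : ℕ) - (2 * j + 1))) ^ 2) 1 := by
      have h3 := EQ.prod (p := p) (k := 1) (s := range l)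
        (f := fun j : ℕ => ((2 * (j : ℚ) + 1) / (2 * (p ^ r : ℕ) - (2 * j + 1))) ^ 2)
        (g := fun _ => 1) (fun j hj => fac_one (by
          have := mem_range.1 hj
          omega))
      rwa [prod_const_one] at h3
    have e : ∀ x : ℚ, w (p ^ r) * x - w (p ^ r) = w (p ^ r) * (x - 1) := fun x => by ring
    rw [e]
    exact h1.2.2.mulL hw
  · intro l hl
    have hpr : 0 < p ^ r := pow_pos hp.out.pos r
    rw [rho_prod _ _ (by omega), prod_range_succ]
    have e0 : (2 * (l : ℚ) + 1) / (2 * (p ^ r : ℕ) - (2 * l + 1)) = 1 := by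
      rw [hl]
      push_cast
      have : (2 * (l : ℚ) + 1) ≠ 0 := by positivity
      have e1 : 2 * (2 * (l : ℚ) + 1) - (2 * l + 1) = 2 * l + 1 := by ring
      rw [e1, div_self this]
    rw [e0, one_pow, mul_one]
    have h1 : EQ p 2 (∏ j ∈ range l, ((2 * (j : ℚ) + 1) / (2 * (p ^ r : ℕ) - (2 * j + 1))) ^ 2)
        (∏ j ∈ range l, (1 + 4 * (((p ^ r : ℕ) : ℚ) / (2 * (j : ℚ) + 1)))) :=
      EQ.prod (p := p) (k := 2) (s := range l) (fun j hj => fac (by
          have := mem_range.1 hj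
          omega) (by
          have := mem_range.1 hj
          omega))
    have h3 : EQ p 2 (∏ j ∈ range l, (1 + 4 * (((p ^ r : ℕ) : ℚ) / (2 * (j : ℚ) + 1))))
        (1 + 4 * ∑ j ∈ range l, (((p ^ r : ℕ) : ℚ) / (2 * (j : ℚ) + 1))) :=
      prod_lin (x := fun j : ℕ => (((p ^ r : ℕ) : ℚ) / (2 * (j : ℚ) + 1))) (fun j hj => by
        have := div_I (p := p) (r := r) (L := 2 * j + 1) (by omega) (by omega) (by omega)
        push_cast at this ⊢
        exact this)
    have e : ∀ x y : ℚ, w (p ^ r) * x - w (p ^ r) * y = w (p ^ r) * (x - y) := fun x y => by ring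
    rw [e]
    exact (h1.trans h3).2.2.mulL hw

end Pool.Agent.H588.CV322
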